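import Pool.Agent.PCO.StmtsP
import Pool.Agent.Helper69_PFB.Fce

/-!
# PCO squad (MP_e54c4c_gt), row EDM: the face of an edge is independent of the other vertices
-/

set_option autoImplicit false

open Matrix Filter Topology

namespace Pool.Agent.PCO.H3

open Pool.Agent.PFS

variable {n : ℕ} {C : Set (V n)}

/-- a relation with a positive coefficient at a vertex off the edge is impossible -/
theorem key (h : PCone C) {K' : ℕ} {w : Fin (K' + 2) → V n} (hw : PES C w) {y : V n}
    (hy : y ∈ Submodule.span ℝ (Face C (w 0 + w 1))) {a : Fin K' → ℝ}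
    (h0 : y + ∑ j, a j • w j.succ.succ = 0) (l : Fin K') (hl : 0 < a l) : False := by
  classical
  have hcl : ∀ i, w i ∈ closure C := fun i => PES.cl hw i
  have hx : w 0 + w 1 ∈ closure C := h.cl_add (hcl 0) (hcl 1)
  obtain ⟨M, hM, -, h2⟩ := Pool.Agent.PFB.H69.span_bd h hx hy
  have hsum : ∑ i, w i = w 0 + w 1 + ∑ j, w (Fin.succ (Fin.succ j)) := by
    rw [Fin.sum_univ_succ, Fin.sum_univ_succ, Fin.succ_zero_eq_one]
    exact (add_assoc _ _ _).symm
  have her : ∑ j, w (Fin.succ (Fin.succ j)) =
      w l.succ.succ + ∑ j ∈ Finset.univ.erase l, w (Fin.succ (Fin.succ j)) :=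
    (Finset.add_sum_erase _ (fun j => w (Fin.succ (Fin.succ j))) (Finset.mem_univ l)).symm
  have hea : ∑ j, a j • w (Fin.succ (Fin.succ j)) =
      a l • w l.succ.succ + ∑ j ∈ Finset.univ.erase l, a j • w (Fin.succ (Fin.succ j)) :=
    (Finset.add_sum_erase _ (fun j => a j • w (Fin.succ (Fin.succ j))) (Finset.mem_univ l)).symm
  set S : V n := w 0 + w 1 + ∑ j ∈ Finset.univ.erase l, w (Fin.succ (Fin.succ j)) with hS
  set B : ℝ := M + ∑ j, |a j| with hB
  have hBM : 0 ≤ B - M := by
    rw [hB, add_sub_cancel_left]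
    exact Finset.sum_nonneg fun j _ => abs_nonneg _
  have hBa : ∀ j, 0 ≤ B + a j := by
    intro j
    have h3 : |a j| ≤ ∑ j, |a j| :=
      Finset.single_le_sum (f := fun j => |a j|) (fun i _ => abs_nonneg _) (Finset.mem_univ j)
    have h4 := neg_abs_le (a j)
    rw [hB]
    linarith
  -- `B S - a_l w_l` is in the closed cone
  have h3 : B • S - a l • w l.succ.succ ∈ closure C := by
    have e : B • S - a l • w l.succ.succ = (M • (w 0 + w 1) + y) + ((B - M) • (w 0 + w 1) +
        ∑ j ∈ Finset.univ.erase l, (B + a j) • w (Fin.succ (Fin.succ j))) := by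
      have e1 : ∑ j ∈ Finset.univ.erase l, (B + a j) • w (Fin.succ (Fin.succ j)) =
          B • ∑ j ∈ Finset.univ.erase l, w (Fin.succ (Fin.succ j)) +
            ∑ j ∈ Finset.univ.erase l, a j • w (Fin.succ (Fin.succ j)) := by
        rw [Finset.smul_sum, ← Finset.sum_add_distrib]
        exact Finset.sum_congr rfl fun j _ => add_smul _ _ _
      have e2 : a l • w l.succ.succ = - y -
          ∑ j ∈ Finset.univ.erase l, a j • w (Fin.succ (Fin.succ j)) := by
        rw [hea] at h0
        have e3 : a l • w l.succ.succ = (y + (a l • w l.succ.succ +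
          ∑ j ∈ Finset.univ.erase l, a j • w (Fin.succ (Fin.succ j)))) - y -
            ∑ j ∈ Finset.univ.erase l, a j • w (Fin.succ (Fin.succ j)) := by abel
        rw [e3, h0, zero_sub]
      rw [e1, e2, hS, smul_add, sub_smul]
      abel
    rw [e]
    refine h.cl_add h2 (h.cl_add (h.cl_smul hx hBM) (h.cl_sum fun j _ => ?_))
    exact h.cl_smul (hcl _) (hBa j)
  have h4 : (1 + B / a l) • S ∈ C := by
    have h5 := h.cl_smul h3 (inv_pos.mpr hl).le
    have e : (1 + B / a l) • S = ∑ i, w i + (a l)⁻¹ • (B • S - a l • w l.succ.succ) := by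
      rw [hsum, her, smul_sub, smul_smul, smul_smul, inv_mul_cancel₀ hl.ne', one_smul, hS,
        div_eq_inv_mul, add_smul, one_smul]
      abel
    rw [e]
    exact h.add_cl (PES.sum_mem hw) h5
  have hBp : 0 ≤ B := by linarith
  have h5 : S ∈ C := (h.smul_iff (by positivity)).1 h4
  refine hw.bd (fun i => if i = l.succ.succ then 0 else 1) (fun i => ?_)
    ⟨l.succ.succ, by rw [if_pos rfl]⟩ ?_
  · show (0 : ℝ) ≤ if i = l.succ.succ then 0 else 1
    split_ifs <;> norm_num
  · have e : ∑ i, (if i = l.succ.succ then (0 : ℝ) else 1) • w i = S := by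
      rw [Fin.sum_univ_succ, Fin.sum_univ_succ, if_neg (Fin.succ_ne_zero _).symm,
        if_neg (fun hc => (Fin.succ_ne_zero l).symm (Fin.succ_injective _ hc)), one_smul,
        one_smul, Fin.succ_zero_eq_one, hS, ← add_assoc]
      have e1 : ∑ j : Fin K', (if (Fin.succ (Fin.succ j)) = l.succ.succ then (0 : ℝ) else 1) •
          w (Fin.succ (Fin.succ j)) =
          ∑ j ∈ Finset.univ.erase l, w (Fin.succ (Fin.succ j)) := by
        rw [← Finset.add_sum_erase _ _ (Finset.mem_univ l), if_pos rfl, zero_smul, zero_add]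
        refine Finset.sum_congr rfl fun j hj => ?_
        rw [if_neg, one_smul]
        intro hc
        exact Finset.ne_of_mem_erase hj (Fin.succ_injective _ (Fin.succ_injective _ hc))
      rw [e1]
    rw [e]
    exact h5

theorem key0 (h : PCone C) {K' : ℕ} {w : Fin (K' + 2) → V n} (hw : PES C w) {y : V n}
    (hy : y ∈ Submodule.span ℝ (Face C (w 0 + w 1))) {a : Fin K' → ℝ}
    (h0 : y + ∑ j, a j • w j.succ.succ = 0) : y = 0 ∧ a = 0 := by
  have ha : a = 0 := by
    funext l
    show a l = 0
    rcases lt_trichotomy (a l) 0 with h1 | h1 | h1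
    · exfalso
      refine key h hw (y := -y) (a := fun j => - a j) (Submodule.neg_mem _ hy) ?_ l
        (neg_pos.mpr h1)
      have e : -y + ∑ j, (- a j) • w (Fin.succ (Fin.succ j)) =
          - (y + ∑ j, a j • w (Fin.succ (Fin.succ j))) := by
        rw [neg_add, ← Finset.sum_neg_distrib]
        exact congrArg _ (Finset.sum_congr rfl fun j _ => neg_smul _ _)
      rw [e, h0, neg_zero]
    · exact h1
    · exact (key h hw hy h0 l h1).elim
  refine ⟨?_, ha⟩
  rw [ha] at h0
  simpa using h0

theorem edm : EdmStmt := by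
  intro n C h K' w hw
  refine ⟨fun y hy a h0 => key0 h hw hy h0, ?_⟩
  let U := Submodule.span ℝ (Face C (w 0 + w 1))
  let f : U × (Fin K' → ℝ) →ₗ[ℝ] V n :=
    LinearMap.coprod U.subtype (Fintype.linearCombination ℝ fun j : Fin K' => w j.succ.succ)
  have hf : Function.Injective f := by
    rw [← LinearMap.ker_eq_bot, LinearMap.ker_eq_bot']
    rintro ⟨y, a⟩ hya
    have h1 : (y : V n) + ∑ j, a j • w (Fin.succ (Fin.succ j)) = 0 := by
      simpa [f, LinearMap.coprod_apply, Fintype.linearCombination_apply] using hya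
    obtain ⟨h2, h3⟩ := key0 h hw y.2 h1
    rw [h3]
    exact Prod.ext (Subtype.ext h2) rfl
  have h1 := LinearMap.finrank_le_finrank_of_injective hf
  rw [Module.finrank_prod, Module.finrank_fin_fun, Module.finrank_fin_fun] at h1
  exact h1

end Pool.Agent.PCO.H3
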